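import Pool.Agent.MP_587aff_al.Cones

set_option autoImplicit false

open Pool.Agent.MP_587aff_al

universe u

/-- For every group, the fixed-point property for cones, the existence of normalised invariant
forms on all spaces `ℓ^∞(G; f)`, and locally subexponential growth are equivalent. -/
theorem Pool.Agent.Results.MP_587aff_al.ConesGrowth.result (G : Type u) [Group G] :
    List.TFAE [FixedPointPropertyForCones G, FormProperty G, LocallySubexponentialGrowth G] := by
  tfae_have 1 → 3 := growth_of_cones
  tfae_have 3 → 2 := formProperty_of_growth
  tfae_have 2 → 1 := cones_of_form
  tfae_finish
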