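import Pool.Agent.MP_587aff_al.Cones

set_option autoImplicit false
open scoped Pointwise
open Filter Topology

open Pool.Agent.MP_587aff_al

universe u

namespace Pool.Agent.Results.MP_587aff_al.DirectProducts

theorem growth_prod {G H : Type u} [Group G] [Group H] (hG : LocallySubexponentialGrowth G)
    (hH : LocallySubexponentialGrowth H) : LocallySubexponentialGrowth (G × H) := by
  classical
  intro S r hr
  set S1 : Finset G := S.image Prod.fst with hS1
  set S2 : Finset H := S.image Prod.snd with hS2
  have hq : 1 < Real.sqrt r := by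
    rw [Real.lt_sqrt (by norm_num)]; simpa using hr
  have hsub : ∀ n : ℕ, ((S : Set (G × H)) ^ n) ⊆ ((S1 : Set G) ^ n) ×ˢ ((S2 : Set H) ^ n) := by
    intro n
    induction n with
    | zero =>
      intro x hx
      simp only [pow_zero, Set.mem_one] at hx
      subst hx
      simp
    | succ n ih =>
      rw [pow_succ, pow_succ, pow_succ]
      rintro _ ⟨a, ha, b, hb, rfl⟩
      have h1 := ih ha
      have hb' : b ∈ S := hb
      refine ⟨⟨a.1, h1.1, b.1, ?_, rfl⟩, ⟨a.2, h1.2, b.2, ?_, rfl⟩⟩
      · exact Finset.mem_coe.mpr (Finset.mem_image_of_mem _ hb')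
      · exact Finset.mem_coe.mpr (Finset.mem_image_of_mem _ hb')
  filter_upwards [hG S1 _ hq, hH S2 _ hq] with n h1 h2
  have hf1 : ((S1 : Set G) ^ n).Finite := by
    rw [← Finset.coe_pow]; exact Finset.finite_toSet _
  have hf2 : ((S2 : Set H) ^ n).Finite := by
    rw [← Finset.coe_pow]; exact Finset.finite_toSet _
  have h3 : ((S : Set (G × H)) ^ n).ncard ≤ ((S1 : Set G) ^ n).ncard * ((S2 : Set H) ^ n).ncard := by
    rw [← Set.ncard_prod]
    exact Set.ncard_le_ncard (hsub n) (hf1.prod hf2)
  calc (((S : Set (G × H)) ^ n).ncard : ℝ)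
      ≤ (((S1 : Set G) ^ n).ncard : ℝ) * (((S2 : Set H) ^ n).ncard : ℝ) := by exact_mod_cast h3
    _ ≤ (Real.sqrt r) ^ n * (Real.sqrt r) ^ n :=
        mul_le_mul h1 h2 (by positivity) (by positivity)
    _ = r ^ n := by rw [← mul_pow, Real.mul_self_sqrt (by linarith)]

end Pool.Agent.Results.MP_587aff_al.DirectProducts

/-- The fixed-point property for cones passes to direct products of two arbitrary groups. -/
theorem Pool.Agent.Results.MP_587aff_al.DirectProducts.result (G H : Type u) [Group G] [Group H]
    (hG : FixedPointPropertyForCones G) (hH : FixedPointPropertyForCones H) :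
    FixedPointPropertyForCones (G × H) :=
  cones_of_form (formProperty_of_growth
    (Pool.Agent.Results.MP_587aff_al.DirectProducts.growth_prod
      (growth_of_cones hG) (growth_of_cones hH)))
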