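import Pool.Agent.MP_587aff_al.LS.Tree
import Pool.Agent.MP_587aff_al.LS.Growth

/-!
# Groups of exponential growth carry Markov chains which spread exponentially up to a subexponential
loss in the starting point (MP_587aff_al)

Let `S` be a finite subset of a group with exponential growth, `s_n` the number of elements of
length exactly `n` (least `n` with `x ∈ S ^ n`) and `lam > 1` the growth rate. There is a Markov
chain on a subset `A` containing `1`, moving from `a` into `S a` and increasing the length by one at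
every step, with
`p_k(a, b) ≤ C (|a| + 1) ^ 2 (s_|a| / lam ^ |a|) lam ^ (- k)`.
If `s_n ≤ C (n + 1) ^ d lam ^ n` there is an injective map from the vertices of the infinite binary
tree to the group such that adjacent vertices, the lower one at height `n`, are mapped to points at
distance `O(log (n + 2))`.

Sketch. Choose a geodesic spanning tree. For every `m` there is a set `Z` of at least half of the
elements of length `m` such that every `x` of length `n ≤ m` has either no descendant in `Z` or at
least `s_m / (4 (n + 1) ^ 2 s_n)` of them: maximise the number of elements of `Z` plus the sum of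
`s_m / (4 (|x| + 1) ^ 2 s_|x|)` over all `x` without descendants in `Z`. On the other hand `x` of length
`n` has at most `s_(m - n)` descendants, which is at most `W lam ^ (- n) s_m` if `m` is a record time
of `s_m / lam ^ m`. The limit of the uniform laws on `Z` for `m → ∞` along record times is the
law of a random geodesic ray, which is the wanted chain.
-/

set_option autoImplicit false

open scoped Pointwise
open Filter Topology
open Pool.Agent.MP_587aff_al

namespace Pool.Agent.Results.MP_587aff_al.LogSpreading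

universe u

/-- The elements of `S`-length exactly `n`: products of `n` elements of `S`, and of no smaller number
of elements of `S`. -/
def sphere {G : Type u} [Group G] [DecidableEq G] (S : Finset G) (n : ℕ) : Finset G :=
  (S ^ n).filter fun x => ∀ j < n, x ∉ S ^ j

/-- The law of a Markov chain with transition law `κ` after `k` steps, started in the given
point. -/
noncomputable def stepLaw {X : Type u} (κ : X → PMF X) : ℕ → X → PMF X
  | 0, x => PMF.pure x
  | k + 1, x => (κ x).bind fun y => stepLaw κ k y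

theorem sphere_eq {G : Type u} [Group G] [DecidableEq G] (S : Finset G) (n : ℕ) :
    sphere S n = LS.sph S n := rfl

theorem stepLaw_eq {X : Type u} (κ : X → PMF X) (k : ℕ) (x : X) :
    stepLaw κ k x = LS.stepLaw κ k x := by
  induction k generalizing x with
  | zero => rfl
  | succ k ih =>
    rw [stepLaw, LS.stepLaw]
    congr 1
    funext y
    exact ih y

theorem sum_inv_sq (m : ℕ) : ∑ n ∈ Finset.range (m + 1), (1 : ℝ) / (4 * ((n : ℝ) + 1) ^ 2) ≤ 1 / 2 := by
  have h : ∀ m : ℕ, ∑ n ∈ Finset.range (m + 1), (1 : ℝ) / (4 * ((n : ℝ) + 1) ^ 2) ≤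
      1 / 2 - 1 / (4 * ((m : ℝ) + 1)) := by
    intro m
    induction m with
    | zero =>
      rw [Finset.sum_range_one]
      norm_num
    | succ m ih =>
      rw [Finset.sum_range_succ]
      have h1 : (1 : ℝ) / (4 * (((m + 1 : ℕ) : ℝ) + 1) ^ 2) ≤
          1 / (4 * ((m : ℝ) + 1)) - 1 / (4 * (((m + 1 : ℕ) : ℝ) + 1)) := by
        push_cast
        have h2 : (0 : ℝ) < (m : ℝ) + 1 := by positivity
        have h3 : (0 : ℝ) < (m : ℝ) + 1 + 1 := by positivity
        rw [div_sub_div _ _ (by positivity) (by positivity), div_le_div_iff₀ (by positivity) (by positivity)]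
        nlinarith [mul_pos h2 h3, mul_pos (mul_pos h2 h3) h3]
      linarith
  have h1 := h m
  have h2 : (0 : ℝ) < 1 / (4 * ((m : ℝ) + 1)) := by positivity
  linarith

/-- Let `S` be a finite subset of a group `G` such that `S ^ n` has more than `r ^ n` elements for
infinitely many `n`, `r > 1`. Let `s_n` be the number of elements of `S`-length `n`. There is
`lam > 1` such that
(1) `s_n ^ (1 / n) → lam`;
(2) there are a real `C`, a subset `A` of `G` containing `1` and a Markov chain on `A`, moving from
`a` to elements of `S a` whose length is larger by one, such that the probability to be in `b` after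
`k` steps, starting in an element `a` of length `n`, is at most
`C (n + 1) ^ 2 (s_n / lam ^ n) lam ^ (- k)`;
(3) if `s_n ≤ C (n + 1) ^ d lam ^ n` for all `n`, then there are a real `C'` and an injective map `φ`
from the infinite binary tree (finite sequences of bits, the children of `l` are `b :: l`) to `G`,
with `φ [] = 1`, such that `φ (b :: l)` is the product of at most `C' log (n + 2)` elements of `S` and
`φ l` for every `l` of height `n`. -/
theorem result {G : Type u} [Group G] [DecidableEq G] (S : Finset G) (r : ℝ) (hr : 1 < r)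
    (hS : ∃ᶠ n in atTop, r ^ n < ((S ^ n).card : ℝ)) :
    ∃ lam : ℝ, 1 < lam ∧
      Tendsto (fun n : ℕ => ((sphere S n).card : ℝ) ^ ((1 : ℝ) / n)) atTop (𝓝 lam) ∧
      (∃ (C : ℝ) (A : Set G) (κ : G → PMF G), (1 : G) ∈ A ∧
        (∀ a ∈ A, ∃ n, a ∈ sphere S n) ∧
        (∀ a ∈ A, ∀ b ∈ (κ a).support, b ∈ A ∧ b * a⁻¹ ∈ S ∧
          ∀ n, a ∈ sphere S n → b ∈ sphere S (n + 1)) ∧
        ∀ n, ∀ a ∈ A, a ∈ sphere S n → ∀ (k : ℕ) (b : G),
          (stepLaw κ k a b).toReal ≤
            C * ((n : ℝ) + 1) ^ 2 * (((sphere S n).card : ℝ) / lam ^ n) * (lam ^ k)⁻¹) ∧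
      ∀ (C : ℝ) (d : ℕ), (∀ n : ℕ, ((sphere S n).card : ℝ) ≤ C * ((n : ℝ) + 1) ^ d * lam ^ n) →
        ∃ (C' : ℝ) (φ : List Bool → G), Function.Injective φ ∧ φ [] = 1 ∧
          ∀ (b : Bool) (l : List Bool), ∃ k : ℕ, (k : ℝ) ≤ C' * Real.log ((l.length : ℝ) + 2) ∧
            φ (b :: l) * (φ l)⁻¹ ∈ S ^ k := by
  obtain ⟨lam, hlam, hle, htend⟩ := LS.growth r hr hS
  have hl0 : 0 < lam := by linarith
  have hpos : ∀ n, (0 : ℝ) < (LS.sph S n).card := fun n => (pow_pos hl0 n).trans_le (hle n)
  let τ : ℕ → ℝ := fun n => 1 / (4 * ((n : ℝ) + 1) ^ 2 * (LS.sph S n).card)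
  have hτ : ∀ n, 0 < τ n := fun n => by
    have := hpos n
    show 0 < 1 / (4 * ((n : ℝ) + 1) ^ 2 * ((LS.sph S n).card : ℝ))
    positivity
  obtain ⟨W, u, hW, hu1, hu2, hu3, hu4⟩ := LS.exists_flow S lam hl0 hle τ hτ fun m => by
    refine le_trans (le_of_eq ?_) (sum_inv_sq m)
    refine Finset.sum_congr rfl fun n _ => ?_
    have := hpos n
    show ((LS.sph S n).card : ℝ) * (1 / (4 * ((n : ℝ) + 1) ^ 2 * ((LS.sph S n).card : ℝ))) = _
    field_simp
  have hu : LS.IsFlow S u := ⟨fun n x hx => (hu2 n x hx).1, hu4⟩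
  have hu10 : 0 < u 0 1 := by linarith
  have hlow : ∀ n, ∀ x ∈ LS.sph S n, 0 < u n x → τ n ≤ u n x := fun n x hx h =>
    (hu3 n x hx).resolve_left h.ne'
  refine ⟨lam, hlam, htend, ?_, ?_⟩
  · refine ⟨4 * W, {a | ∃ n, a ∈ LS.sph S n ∧ 0 < u n a}, LS.chain hu, ⟨0, LS.one_mem_sph, hu10⟩,
      fun a ha => ⟨_, ha.choose_spec.1⟩, ?_, ?_⟩
    · rintro a ⟨n, ha, hpa⟩ b hb
      obtain ⟨h1, h2, h3⟩ := LS.chain_support hu ha hpa hb
      refine ⟨⟨n + 1, h1, h2⟩, h3, fun n' hn' => ?_⟩
      obtain rfl := LS.sph_unique ha hn'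
      exact h1
    · rintro n a ⟨n', ha, hpa⟩ hn k b
      obtain rfl := LS.sph_unique ha hn
      rw [stepLaw_eq]
      have h1 := LS.stepLaw_le hu k ha hpa b
      have hsn := hpos n'
      have hbd0 : 0 ≤ 4 * W * ((n' : ℝ) + 1) ^ 2 * (((LS.sph S n').card : ℝ) / lam ^ n') * (lam ^ k)⁻¹ := by
        have : 0 < W := by linarith
        positivity
      by_cases hb : b ∈ LS.dsc S n' k a
      · rw [if_pos hb] at h1
        have h2 := (hu2 (n' + k) b (LS.mem_dsc.1 hb).1)
        have h3 : u (n' + k) b / u n' a ≤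
            4 * W * ((n' : ℝ) + 1) ^ 2 * (((LS.sph S n').card : ℝ) / lam ^ n') * (lam ^ k)⁻¹ := by
          have h4 := hlow n' a ha hpa
          calc u (n' + k) b / u n' a ≤ (W * (lam ^ (n' + k))⁻¹) / τ n' :=
                div_le_div₀ (by have : 0 < W := by linarith
                                positivity) h2.2 (hτ n') h4
            _ = _ := by
                show (W * (lam ^ (n' + k))⁻¹) / (1 / (4 * ((n' : ℝ) + 1) ^ 2 * ((LS.sph S n').card : ℝ))) = _
                rw [pow_add]
                field_simp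
        calc (LS.stepLaw (LS.chain hu) k a b).toReal
            ≤ (ENNReal.ofReal (u (n' + k) b / u n' a)).toReal :=
              ENNReal.toReal_mono ENNReal.ofReal_ne_top h1
          _ = u (n' + k) b / u n' a := ENNReal.toReal_ofReal (div_nonneg h2.1 hpa.le)
          _ ≤ _ := h3
      · rw [if_neg hb] at h1
        rw [le_bot_iff.1 h1]
        exact hbd0
  · intro C d hC
    have hC1 : 1 ≤ C := by
      have h1 := hC 0
      have h2 := hle 0
      rw [pow_zero] at h2
      have h3 : ((sphere S 0).card : ℝ) ≤ C * (((0 : ℕ) : ℝ) + 1) ^ d * lam ^ 0 := h1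
      rw [Nat.cast_zero, zero_add, one_pow, pow_zero, mul_one, mul_one] at h3
      exact h2.trans h3
    have hC0 : 0 < C := by linarith
    have hW0 : 0 < W := by linarith
    have hll : 0 < Real.log lam := Real.log_pos hlam
    let q : ℕ → ℝ := fun n => 4 * C * ((n : ℝ) + 1) ^ (d + 2)
    have hq0 : ∀ n, 0 < q n := fun n => by
      show 0 < 4 * C * ((n : ℝ) + 1) ^ (d + 2)
      positivity
    let k : ℕ → ℕ := fun n => ⌈Real.log (W * q n) / Real.log lam⌉₊ + 1
    let t : ℕ → ℕ := fun j => Nat.rec 0 (fun _ x => x + k x) j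
    have hWq : ∀ n, 1 ≤ W * q n := fun n => by
      have h1 : (1 : ℝ) ≤ ((n : ℝ) + 1) ^ (d + 2) :=
        one_le_pow₀ (by linarith [(Nat.cast_nonneg n : (0 : ℝ) ≤ n)])
      show 1 ≤ W * (4 * C * ((n : ℝ) + 1) ^ (d + 2))
      nlinarith [mul_le_mul hC1 h1 zero_le_one hC0.le]
    have hlogq : ∀ n, Real.log (W * q n) = Real.log (4 * W * C) + (d + 2) * Real.log (n + 1) := by
      intro n
      show Real.log (W * (4 * C * ((n : ℝ) + 1) ^ (d + 2))) = _
      rw [show W * (4 * C * ((n : ℝ) + 1) ^ (d + 2)) = (4 * W * C) * ((n : ℝ) + 1) ^ (d + 2) by ring,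
        Real.log_mul (by positivity) (by positivity), Real.log_pow]
      push_cast
      ring
    have hk1 : ∀ n, W * q n < lam ^ k n := by
      intro n
      rw [← Real.log_lt_log_iff (by have := hq0 n; positivity) (by positivity), Real.log_pow]
      have h1 : Real.log (W * q n) / Real.log lam ≤ (⌈Real.log (W * q n) / Real.log lam⌉₊ : ℝ) := Nat.le_ceil _
      rw [div_le_iff₀ hll] at h1
      show _ < (((⌈Real.log (W * q n) / Real.log lam⌉₊ + 1 : ℕ)) : ℝ) * Real.log lam
      push_cast
      linarith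
    have hk2 : ∀ n : ℕ, (k n : ℝ) ≤ (Real.log (4 * W * C) / Real.log lam + 2) +
        ((d + 2) / Real.log lam) * Real.log (n + 1) := by
      intro n
      have h1 : (⌈Real.log (W * q n) / Real.log lam⌉₊ : ℝ) < Real.log (W * q n) / Real.log lam + 1 :=
        Nat.ceil_lt_add_one (div_nonneg (Real.log_nonneg (hWq n)) hll.le)
      show (((⌈Real.log (W * q n) / Real.log lam⌉₊ + 1 : ℕ)) : ℝ) ≤ _
      push_cast
      have h2 : Real.log (W * q n) / Real.log lam = Real.log (4 * W * C) / Real.log lam +
          ((d + 2) / Real.log lam) * Real.log (n + 1) := by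
        rw [hlogq, add_div]
        ring
      rw [h2] at h1 ⊢
      linarith
    have h4WC : 0 ≤ Real.log (4 * W * C) := Real.log_nonneg (by nlinarith)
    obtain ⟨C', hC'⟩ := LS.level_bound (Real.log (4 * W * C) / Real.log lam + 2) ((d + 2) / Real.log lam)
      (by positivity) (by positivity) k t hk2 rfl (fun _ => rfl)
    obtain ⟨φ, h1, h2, _, h4⟩ := LS.exists_tree hu k t (fun n => Nat.succ_pos _) rfl (fun _ => rfl) hu10
      (fun n x hx h => LS.two_dsc hu hW hlam (fun n x hx => (hu2 n x hx).2) hx (hq0 n) (by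
        refine le_trans ?_ (hlow n x hx h)
        have h5 := hC n
        have h6 := hpos n
        show (4 * C * ((n : ℝ) + 1) ^ (d + 2))⁻¹ * (lam ^ n)⁻¹ ≤
          1 / (4 * ((n : ℝ) + 1) ^ 2 * ((LS.sph S n).card : ℝ))
        rw [← mul_inv, ← one_div]
        refine one_div_le_one_div_of_le (by positivity) ?_
        have h7 : ((LS.sph S n).card : ℝ) ≤ C * ((n : ℝ) + 1) ^ d * lam ^ n := h5
        calc 4 * ((n : ℝ) + 1) ^ 2 * ((LS.sph S n).card : ℝ)
            ≤ 4 * ((n : ℝ) + 1) ^ 2 * (C * ((n : ℝ) + 1) ^ d * lam ^ n) :=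
              mul_le_mul_of_nonneg_left h7 (by positivity)
          _ = 4 * C * ((n : ℝ) + 1) ^ (d + 2) * lam ^ n := by ring) (hk1 n))
    exact ⟨C', φ, h1, h2, fun b l => ⟨k (t l.length), hC' _, h4 b l⟩⟩

end Pool.Agent.Results.MP_587aff_al.LogSpreading
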