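import Pool.Agent.MP_587aff_al.U.Chain

/-!
# Supramenability and exponentially spreading Markov chains (MP_587aff_al)

A group is supramenable if and only if no Markov chain with bounded range on a nonempty subset of
the group spreads exponentially and uniformly, if and only if the same holds for processes in the
group with arbitrary memory.

Sketch. A process with `P(position = g after k steps) ≤ C θ ^ k` from every state is sped up until its
one-step bound is tiny. Then the ternary branching version of the process is considered; by a
recursion in the depth the labelled ternary tree contains with probability at least `99/100` a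
binary subtree all of whose nodes have different positions. By compactness there is an infinite
binary tree in the group with bounded steps and without collisions; its vertex set carries no
invariant measure. Conversely, a nonempty set without invariant measure has no relative Følner sets,
Hall's theorem gives an injection of two copies of the set into itself by bounded steps,
and the uniform choice between the two images is the wanted Markov chain.
-/

set_option autoImplicit false

open scoped ENNReal
open Pool.Agent.MP_587aff_al

namespace Pool.Agent.Results.MP_587aff_al.SpreadingChains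

universe u

/-- `G` is supramenable: for every nonempty `A ⊆ G` there is a finitely additive left invariant
measure on all subsets of `G`, with values in `[0, ∞]`, of total mass `1` on `A`. -/
def Supramenable (G : Type u) [Group G] : Prop :=
  ∀ A : Set G, A.Nonempty → ∃ μ : Set G → ℝ≥0∞, μ ∅ = 0 ∧
    (∀ X Y : Set G, Disjoint X Y → μ (X ∪ Y) = μ X + μ Y) ∧
    (∀ (g : G) (X : Set G), μ ((fun x => g * x) '' X) = μ X) ∧ μ A = 1

/-- The law of a Markov chain with transition law `κ` after `k` steps, started in the given
point. -/
noncomputable def stepLaw {X : Type u} (κ : X → PMF X) : ℕ → X → PMF X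
  | 0, x => PMF.pure x
  | k + 1, x => (κ x).bind fun y => stepLaw κ k y

/-- `κ h` is the joint law of an increment in `G` and of the next state, in the state `h`;
`productLaw κ k h` is the law of the product `s_k ⋯ s_1` of the next `k` increments. -/
noncomputable def productLaw {G : Type u} [Group G] {H : Type u} (κ : H → PMF (G × H)) :
    ℕ → H → PMF G
  | 0, _ => PMF.pure 1
  | k + 1, h => (κ h).bind fun x => (productLaw κ k x.2).map fun y => y * x.1

theorem supra_iff (G : Type u) [Group G] : Supramenable G ↔ U.Supra G := by
  constructor
  · intro h A hA
    obtain ⟨μ, h1, h2, h3, h4⟩ := h A hA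
    exact ⟨μ, ⟨h1, h2, fun g X => h3 g X⟩, h4⟩
  · intro h A hA
    obtain ⟨μ, ⟨h1, h2, h3⟩, h4⟩ := h A hA
    exact ⟨μ, h1, h2, fun g X => h3 g X, h4⟩

theorem stepLaw_eq {X : Type u} (κ : X → PMF X) (k : ℕ) (x : X) :
    stepLaw κ k x = U.stepLaw κ k x := by
  induction k generalizing x with
  | zero => rfl
  | succ k ih =>
    rw [stepLaw, U.stepLaw]
    congr 1
    funext y
    exact ih y

theorem productLaw_eq {G : Type u} [Group G] {H : Type u} (κ : H → PMF (G × H)) (k : ℕ) (h : H) :
    productLaw κ k h = U.prodLaw κ k h := by
  induction k generalizing h with
  | zero => rfl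
  | succ k ih =>
    rw [productLaw, U.prodLaw]
    congr 1
    funext x
    rw [ih]

/-- For every group `G` the following are equivalent.
(1) `G` is supramenable.
(2) For every process in `G` with increments in a finite set `S`, with arbitrary memory (a state space
`H`), and all real `C` and `θ < 1`, there are `k`, a state `h` and `g ∈ G` such that the product of the
`k` increments after `h` is `g` with probability more than `C θ ^ k`.
(3) For every Markov chain on a nonempty subset `A` of `G` which moves from `a` only to elements of
`S a`, with `S` finite, and all real `C` and `θ < 1`, there are `k` and `a, b ∈ A` such that the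
`k`-step transition probability from `a` to `b` is more than `C θ ^ k`. -/
theorem result (G : Type u) [Group G] : List.TFAE [
    Supramenable G,
    ∀ (H : Type u) [Nonempty H] (κ : H → PMF (G × H)) (S : Finset G),
      (∀ h x, x ∈ (κ h).support → x.1 ∈ S) →
      ∀ C θ : ℝ, θ < 1 → ∃ (k : ℕ) (h : H) (g : G), C * θ ^ k < (productLaw κ k h g).toReal,
    ∀ (A : Set G), A.Nonempty → ∀ (κ : A → PMF A) (S : Finset G),
      (∀ a b : A, b ∈ (κ a).support → (b : G) * (a : G)⁻¹ ∈ S) →
      ∀ C θ : ℝ, θ < 1 → ∃ (k : ℕ) (a b : A), C * θ ^ k < (stepLaw κ k a b).toReal] := by
  tfae_have 1 → 2 := by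
    intro hG H _ κ S hS C θ hθ
    by_contra hcon
    push Not at hcon
    refine U.no_general_process κ S (fun h x hx => hS h x ((PMF.mem_support_iff _ _).mpr hx))
      ((supra_iff G).mp hG) C θ hθ fun k h g => ?_
    rw [← productLaw_eq]
    exact hcon k h g
  tfae_have 2 → 3 := by
    intro h2 A hA κ S hS C θ hθ
    by_contra hcon
    push Not at hcon
    have : Nonempty A := hA.to_subtype
    obtain ⟨k, a, g, hk⟩ := h2 A (U.chainInc κ) S (by
      intro a x hx
      rw [U.chainInc, PMF.support_map] at hx
      obtain ⟨b, hb, rfl⟩ := hx
      exact hS a b hb) C θ hθ
    have hc : 0 ≤ C * θ ^ k := ENNReal.toReal_nonneg.trans (hcon k a a)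
    have h3 := U.prodLaw_chainInc_le κ k a g (C * θ ^ k) hc fun b => by
      rw [← stepLaw_eq]
      exact hcon k a b
    rw [← productLaw_eq] at h3
    exact absurd hk (not_lt.mpr h3)
  tfae_have 3 → 1 := by
    intro h3
    rw [supra_iff]
    by_contra hG
    obtain ⟨A, hA, κ, S, hS, hb⟩ := U.exists_chain hG
    obtain ⟨k, a, b, hk⟩ := h3 A hA κ S hS 1 (1 / 2) (by norm_num)
    rw [stepLaw_eq, one_mul] at hk
    exact absurd hk (not_lt.mpr (hb k a b))
  tfae_finish

end Pool.Agent.Results.MP_587aff_al.SpreadingChains
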